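import Mathlib

/-!
# The normalised trace form on totally real algebraic numbers
-/

open Polynomial IntermediateField

namespace Pool.Agent.H79

/-- The normalised trace of an algebraic number: the average of its conjugates, read off from
its minimal polynomial over `ℚ`. -/
noncomputable def ntr (α : ℝ) : ℚ := -(minpoly ℚ α).nextCoeff / (minpoly ℚ α).natDegree

/-- A real number is totally real (and algebraic) if it is algebraic over `ℚ` and all complex
roots of its minimal polynomial are real. -/
def TotallyReal (α : ℝ) : Prop :=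
  IsIntegral ℚ α ∧ ∀ z : ℂ, Polynomial.aeval z (minpoly ℚ α) = 0 → z.im = 0

section

variable {L : IntermediateField ℚ ℝ} [FiniteDimensional ℚ L]

theorem ntr_eq_trace (α : L) :
    ntr (α : ℝ) = Algebra.trace ℚ L α / Module.finrank ℚ L := by
  have hmin : minpoly ℚ (α : ℝ) = minpoly ℚ α := by
    exact minpoly.algebraMap_eq (algebraMap L ℝ).injective α
  have hint : IsIntegral ℚ α := Algebra.IsIntegral.isIntegral α
  rw [ntr, hmin, trace_eq_finrank_mul_minpoly_nextCoeff]
  have h1 : Module.finrank ℚ L = Module.finrank ℚ ℚ⟮α⟯ * Module.finrank ℚ⟮α⟯ L :=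
    (Module.finrank_mul_finrank ℚ ℚ⟮α⟯ L).symm
  have h2 : Module.finrank ℚ ℚ⟮α⟯ = (minpoly ℚ α).natDegree := IntermediateField.adjoin.finrank hint
  have h3 : (Module.finrank ℚ⟮α⟯ L : ℚ) ≠ 0 := by
    exact_mod_cast (Module.finrank_pos (R := ℚ⟮α⟯) (M := L)).ne'
  have h4 : ((minpoly ℚ α).natDegree : ℚ) ≠ 0 := by
    exact_mod_cast (minpoly.natDegree_pos hint).ne'
  rw [h1, h2]
  push_cast
  field_simp

end

theorem sum_ntr_eq_zero_iff {J : Type*} [Fintype J] (x : J → ℝ) (hx : ∀ j, TotallyReal (x j))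
    (l : J → ℚ) : (∀ j, ∑ k, ntr (x j * x k) * l k = 0) ↔ ∑ k, (l k : ℝ) * x k = 0 := by
  classical
  set L : IntermediateField ℚ ℝ := IntermediateField.adjoin ℚ (Set.range x) with hL
  have hfin : FiniteDimensional ℚ L := by
    apply IntermediateField.finiteDimensional_adjoin
    rintro _ ⟨j, rfl⟩
    exact (hx j).1
  have hmem : ∀ j, x j ∈ L := fun j => IntermediateField.subset_adjoin ℚ _ ⟨j, rfl⟩
  set X : J → L := fun j => ⟨x j, hmem j⟩ with hX
  have hXx : ∀ j, ((X j : L) : ℝ) = x j := fun j => rfl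
  set α : L := ∑ k, algebraMap ℚ L (l k) * X k with hα
  have hαx : (α : ℝ) = ∑ k, (l k : ℝ) * x k := by
    rw [hα]
    push_cast
    rfl
  have hd : (Module.finrank ℚ L : ℚ) ≠ 0 := by
    exact_mod_cast (Module.finrank_pos (R := ℚ) (M := L)).ne'
  have hB : ∀ j, ∑ k, ntr (x j * x k) * l k = Algebra.trace ℚ L (X j * α) / Module.finrank ℚ L := by
    intro j
    have h1 : ∀ k, ntr (x j * x k) = Algebra.trace ℚ L (X j * X k) / Module.finrank ℚ L := by
      intro k
      have := ntr_eq_trace (X j * X k)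
      rwa [MulMemClass.coe_mul] at this
    simp only [h1]
    rw [hα, Finset.mul_sum, map_sum, Finset.sum_div]
    refine Finset.sum_congr rfl fun k _ => ?_
    rw [show X j * (algebraMap ℚ L (l k) * X k) = l k • (X j * X k) by
      rw [Algebra.smul_def]; ring, map_smul, smul_eq_mul]
    ring
  constructor
  · intro h
    have h1 : ∀ j, Algebra.trace ℚ L (X j * α) = 0 := by
      intro j
      have := h j
      rw [hB, div_eq_zero_iff] at this
      exact this.resolve_right hd
    have h2 : Algebra.trace ℚ L (α * α) = 0 := by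
      have : α * α = ∑ k, l k • (X k * α) := by
        conv_lhs => rw [hα, Finset.sum_mul]
        refine Finset.sum_congr rfl fun k _ => ?_
        rw [Algebra.smul_def, mul_assoc, hα]
      rw [this, map_sum]
      refine Finset.sum_eq_zero fun k _ => ?_
      rw [map_smul, h1, smul_zero]
    -- embeddings are real on `α`
    have him : ∀ σ : L →ₐ[ℚ] ℂ, (σ α).im = 0 := by
      intro σ
      have hσX : ∀ j, (σ (X j)).im = 0 := by
        intro j
        apply (hx j).2
        have hmin : minpoly ℚ (x j) = minpoly ℚ (X j) := by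
          rw [← hXx]
          exact minpoly.algebraMap_eq (algebraMap L ℝ).injective (X j)
        rw [hmin, Polynomial.aeval_algHom_apply, minpoly.aeval, map_zero]
      rw [hα, map_sum, Complex.im_sum]
      refine Finset.sum_eq_zero fun k _ => ?_
      rw [map_mul, AlgHom.commutes, Complex.mul_im, hσX]
      simp
    have h3 : ∑ σ : L →ₐ[ℚ] ℂ, σ (α * α) = 0 := by
      rw [← trace_eq_sum_embeddings ℂ, h2, map_zero]
    have h4 : ∑ σ : L →ₐ[ℚ] ℂ, (σ α).re ^ 2 = 0 := by
      have h5 : ∀ σ : L →ₐ[ℚ] ℂ, (σ (α * α)).re = (σ α).re ^ 2 := by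
        intro σ
        rw [map_mul, Complex.mul_re, him σ]
        ring
      rw [← Complex.zero_re, ← h3, Complex.re_sum]
      exact (Finset.sum_congr rfl fun σ _ => h5 σ).symm
    have h6 := (Finset.sum_eq_zero_iff_of_nonneg (fun σ _ => sq_nonneg _)).1 h4
    set σ₀ : L →ₐ[ℚ] ℂ := (IsScalarTower.toAlgHom ℚ ℝ ℂ).comp L.val with hσ₀
    have h7 := h6 σ₀ (Finset.mem_univ _)
    have h8 : (σ₀ α).re = (α : ℝ) := rfl
    rw [h8] at h7
    rw [← hαx]
    exact pow_eq_zero_iff (two_ne_zero) |>.1 h7
  · intro h j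
    have h1 : α = 0 := by
      apply Subtype.ext
      rw [hαx, h]
      rfl
    rw [hB, h1, mul_zero, map_zero, zero_div]

end Pool.Agent.H79
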