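import Mathlib

/-!
# Parity of integral points of a rational subspace: duality
-/

open Matrix

namespace Pool.Agent.H79

variable {J : Type*} [Fintype J] [DecidableEq J]

/-- Clearing denominators of a rational vector. -/
theorem exists_int_multiple (q : J → ℚ) : ∃ (d : ℤ) (l : J → ℤ), d ≠ 0 ∧ ∀ j, (d : ℚ) * q j = l j := by
  refine ⟨∏ j, ((q j).den : ℤ), fun j => (∏ k ∈ Finset.univ.erase j, ((q k).den : ℤ)) * (q j).num,
    ?_, fun j => ?_⟩
  · rw [Finset.prod_ne_zero_iff]
    intro j _
    exact_mod_cast (q j).den_ne_zero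
  · rw [← Finset.mul_prod_erase _ _ (Finset.mem_univ j)]
    push_cast
    have h1 : ((q j).den : ℚ) * q j = (q j).num := by
      rw [mul_comm]
      exact Rat.mul_den_eq_num (q j)
    calc _ = (∏ k ∈ Finset.univ.erase j, ((q k).den : ℚ)) * (((q j).den : ℚ) * q j) := by ring
      _ = _ := by rw [h1]

/-- Duality for parities: the functional `σ` is even on all integral points of the kernel of a
rational linear map `f` iff some integral functional congruent to `σ` modulo `2` factors through
`f`. -/
theorem even_on_ker_iff {E : Type*} [AddCommGroup E] [Module ℚ E] (f : (J → ℚ) →ₗ[ℚ] E)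
    (σ : J → ℤ) :
    (∀ l : J → ℤ, f (fun j => (l j : ℚ)) = 0 → Even (∑ j, σ j * l j)) ↔
      ∃ (w : J → ℤ) (φ : E →ₗ[ℚ] ℚ), (∀ j, Even (w j - σ j)) ∧
        ∀ q : J → ℚ, φ (f q) = ∑ j, (w j : ℚ) * q j := by
  constructor
  · intro h
    -- the lattice of integral points of the kernel
    let F : (J → ℤ) →+ E :=
      { toFun := fun l => f (fun j => (l j : ℚ))
        map_zero' := by
          have : (fun j : J => (((0 : J → ℤ) j : ℤ) : ℚ)) = 0 := by
            funext j; simp
          rw [this, map_zero]
        map_add' := fun a b => by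
          have : (fun j : J => (((a + b) j : ℤ) : ℚ)) = (fun j => (a j : ℚ)) + fun j => (b j : ℚ) := by
            funext j; simp
          rw [this, map_add] }
    let Λ : Submodule ℤ (J → ℤ) := LinearMap.ker F.toIntLinearMap
    have hΛ : ∀ l, l ∈ Λ ↔ f (fun j => (l j : ℚ)) = 0 := fun l => Iff.rfl
    have htf : Module.IsTorsionFree ℤ ((J → ℤ) ⧸ Λ) := by
      have hE : Module.IsTorsionFree ℤ E := by
        refine Module.IsTorsionFree.mk fun n hn => ?_
        have hn0 : n ≠ 0 := hn.ne_zero
        intro x y hxy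
        simp only at hxy
        have hx : ((n : ℚ) • x) = ((n : ℚ) • y) := by
          rw [Int.cast_smul_eq_zsmul, Int.cast_smul_eq_zsmul]
          exact hxy
        exact smul_right_injective E (Int.cast_ne_zero.2 hn0 : (n : ℚ) ≠ 0) hx
      let e : ((J → ℤ) ⧸ Λ) →ₗ[ℤ] E := Submodule.liftQ Λ F.toIntLinearMap le_rfl
      have he : Function.Injective e := by
        rw [← LinearMap.ker_eq_bot]
        exact Submodule.ker_liftQ_eq_bot _ _ _ le_rfl
      exact he.moduleIsTorsionFree _ (fun c x => by simp)
    have hfree : Module.Free ℤ ((J → ℤ) ⧸ Λ) := Module.free_of_finite_type_torsion_free'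
    obtain ⟨g, hg⟩ := Module.projective_lifting_property Λ.mkQ
      (LinearMap.id : ((J → ℤ) ⧸ Λ) →ₗ[ℤ] _) (Submodule.mkQ_surjective Λ)
    let s : (J → ℤ) →ₗ[ℤ] ℤ := ∑ j, σ j • LinearMap.proj j
    have hs : ∀ l, s l = ∑ j, σ j * l j := by
      intro l
      simp [s]
    let W : (J → ℤ) →ₗ[ℤ] ℤ := s ∘ₗ g ∘ₗ Λ.mkQ
    have hWΛ : ∀ l ∈ Λ, W l = 0 := by
      intro l hl
      simp only [W, LinearMap.comp_apply]
      rw [(Submodule.Quotient.mk_eq_zero Λ).2 hl |> fun h => (h : Λ.mkQ l = 0), map_zero, map_zero]
    have hWs : ∀ l, Even (W l - s l) := by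
      intro l
      have hmem : l - g (Λ.mkQ l) ∈ Λ := by
        rw [← Submodule.Quotient.mk_eq_zero, Submodule.Quotient.mk_sub]
        have := LinearMap.congr_fun hg (Λ.mkQ l)
        simp only [LinearMap.comp_apply, LinearMap.id_apply] at this
        have h2 : (Submodule.Quotient.mk (g (Λ.mkQ l)) : (J → ℤ) ⧸ Λ) = Λ.mkQ l := this
        rw [h2]
        simp
      have heven := h _ ((hΛ _).1 hmem)
      rw [← hs, map_sub] at heven
      have : W l - s l = -(s l - s (g (Λ.mkQ l))) := by
        simp only [W, LinearMap.comp_apply]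
        ring
      rw [this]
      exact heven.neg
    set w : J → ℤ := fun j => W (Pi.single j 1) with hw
    have hWw : ∀ l, W l = ∑ j, w j * l j := by
      intro l
      have : l = ∑ j, l j • (Pi.single j (1 : ℤ) : J → ℤ) := by
        funext k
        simp [Finset.sum_apply, Pi.single_apply]
      conv_lhs => rw [this]
      rw [map_sum]
      refine Finset.sum_congr rfl fun j _ => ?_
      rw [map_smul, smul_eq_mul, mul_comm]
    let Wq : (J → ℚ) →ₗ[ℚ] ℚ := ∑ j, (w j : ℚ) • LinearMap.proj j
    have hWq : ∀ q, Wq q = ∑ j, (w j : ℚ) * q j := by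
      intro q
      simp [Wq]
    have hann : Wq ∈ (LinearMap.ker f).dualAnnihilator := by
      rw [Submodule.mem_dualAnnihilator]
      intro q hq
      obtain ⟨d, l, hd, hl⟩ := exists_int_multiple q
      have h1 : (fun j => (l j : ℚ)) = (d : ℚ) • q := by
        funext j
        rw [← hl j]
        simp
      have h2 : l ∈ Λ := by
        rw [hΛ, h1, map_smul, LinearMap.mem_ker.1 hq, smul_zero]
      have h3 := hWΛ l h2
      rw [hWw] at h3
      have h4 : (d : ℚ) * Wq q = 0 := by
        rw [hWq, Finset.mul_sum]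
        have : ∀ j, (d : ℚ) * ((w j : ℚ) * q j) = ((w j * l j : ℤ) : ℚ) := by
          intro j
          push_cast
          rw [← hl j]
          ring
        simp only [this]
        rw [← Int.cast_sum, h3, Int.cast_zero]
      exact (mul_eq_zero.1 h4).resolve_left (Int.cast_ne_zero.2 hd)
    rw [← LinearMap.range_dualMap_eq_dualAnnihilator_ker] at hann
    obtain ⟨φ, hφ⟩ := hann
    refine ⟨w, φ, fun j => ?_, fun q => ?_⟩
    · have := hWs (Pi.single j 1)
      rw [hs] at this
      simpa [Pi.single_apply] using this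
    · have := LinearMap.congr_fun hφ q
      rw [LinearMap.dualMap_apply] at this
      rw [this, hWq]
  · rintro ⟨w, φ, hw, hφ⟩ l hl
    have h1 := hφ (fun j => (l j : ℚ))
    rw [hl, map_zero] at h1
    have h2 : ∑ j, w j * l j = 0 := by
      have : ((∑ j, w j * l j : ℤ) : ℚ) = 0 := by
        push_cast
        exact h1.symm
      exact_mod_cast this
    have h3 : ∑ j, σ j * l j = ∑ j, w j * l j - ∑ j, (w j - σ j) * l j := by
      rw [← Finset.sum_sub_distrib]
      exact Finset.sum_congr rfl fun j _ => by ring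
    rw [h3, h2, zero_sub]
    refine Even.neg ?_
    exact Finset.even_sum _ fun j _ => (hw j).mul_right _

end Pool.Agent.H79
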