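import Pool.Agent.H79.PhaseSet
import Pool.Agent.H79.NormTrace
import Pool.Agent.H79.Parity

/-!
# The criterion for pretty good state transfer
-/

open Matrix Polynomial

namespace Pool.Agent.H79

variable {V : Type*} [Fintype V] [DecidableEq V]

theorem charpoly_eq_prod {A Q : Matrix V V ℝ} {lam : V → ℝ}
    (hQ' : Qᵀ * Q = 1) (hA : A = Q * Matrix.diagonal lam * Qᵀ) :
    A.charpoly = ∏ i, (X - C (lam i)) := by
  rw [hA, Matrix.charpoly_mul_comm, ← Matrix.mul_assoc, hQ', Matrix.one_mul,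
    Matrix.charpoly_diagonal]

/-- Eigenvalues of symmetric integer matrices are totally real algebraic integers. -/
theorem totallyReal_of_root {A : Matrix V V ℤ} (hA : A.IsSymm) {θ : ℝ}
    (hθ : (A.map (Int.cast : ℤ → ℝ)).charpoly.IsRoot θ) : TotallyReal θ := by
  have hsymm : (A.map (Int.cast : ℤ → ℝ)).IsSymm := by
    rw [Matrix.IsSymm, ← Matrix.transpose_map, hA.eq]
  obtain ⟨Q, lam, hQ, hQ', hspec⟩ := exists_spectral _ hsymm
  have hR : (A.map (Int.cast : ℤ → ℝ)).charpoly = A.charpoly.map (Int.castRingHom ℝ) :=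
    Matrix.charpoly_map A (Int.castRingHom ℝ)
  have hprod := charpoly_eq_prod hQ' hspec
  -- rational characteristic polynomial
  set P : ℚ[X] := A.charpoly.map (Int.castRingHom ℚ) with hP
  have hPm : P.Monic := (Matrix.charpoly_monic A).map _
  have hPR : P.map (algebraMap ℚ ℝ) = A.charpoly.map (Int.castRingHom ℝ) := by
    rw [hP, Polynomial.map_map]
    congr 1
  have hroot : Polynomial.aeval θ P = 0 := by
    rw [Polynomial.aeval_def, ← Polynomial.eval_map, hPR, ← hR]
    exact hθ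
  refine ⟨⟨P, hPm, hroot⟩, fun z hz => ?_⟩
  have hdvd : minpoly ℚ θ ∣ P := minpoly.dvd ℚ θ hroot
  have hz' : Polynomial.aeval z P = 0 := by
    obtain ⟨R, hR⟩ := hdvd
    rw [hR, map_mul, hz, zero_mul]
  have hPC : P.map (algebraMap ℚ ℂ) = (∏ i, (X - C (lam i))).map (algebraMap ℝ ℂ) := by
    rw [← hprod, hR, ← hPR, Polynomial.map_map (algebraMap ℚ ℝ) (algebraMap ℝ ℂ)]
    rfl
  rw [Polynomial.aeval_def, ← Polynomial.eval_map, hPC, Polynomial.map_prod,
    Polynomial.eval_prod, Finset.prod_eq_zero_iff] at hz'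
  obtain ⟨i, _, hi⟩ := hz'
  simp only [Polynomial.map_sub, Polynomial.map_X, Polynomial.map_C, Polynomial.eval_sub,
    Polynomial.eval_X, Polynomial.eval_C] at hi
  rw [sub_eq_zero] at hi
  rw [hi]
  simp

theorem isRoot_of_mem_specSupport {A : Matrix V V ℝ} {a : V → ℝ} {θ : ℝ}
    (h : θ ∈ specSupport A a) : A.charpoly.IsRoot θ := by
  obtain ⟨y, hy, hya⟩ := h
  have hy0 : y ≠ 0 := by
    rintro rfl
    simp at hya
  rw [Polynomial.IsRoot, Matrix.eval_charpoly, ← Matrix.exists_mulVec_eq_zero_iff]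
  refine ⟨y, hy0, ?_⟩
  rw [Matrix.sub_mulVec, hy]
  simp [Matrix.scalar_apply]

theorem specSupport_finite (A : Matrix V V ℝ) (a : V → ℝ) : (specSupport A a).Finite := by
  have h0 : A.charpoly ≠ 0 := (Matrix.charpoly_monic A).ne_zero
  refine (A.charpoly.roots.toFinset.finite_toSet).subset fun θ hθ => ?_
  rw [Finset.mem_coe, Multiset.mem_toFinset, Polynomial.mem_roots h0]
  exact isRoot_of_mem_specSupport hθ

theorem totallyReal_of_mem_specSupport (G : SimpleGraph V) [DecidableRel G.Adj] {a : V → ℝ}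
    {θ : ℝ} (h : θ ∈ specSupport (G.adjMatrix ℝ) a) : TotallyReal θ := by
  apply totallyReal_of_root (A := G.adjMatrix ℤ) G.isSymm_adjMatrix
  have : (G.adjMatrix ℤ).map (Int.cast : ℤ → ℝ) = G.adjMatrix ℝ := by
    ext i j
    simp only [SimpleGraph.adjMatrix_apply, Matrix.map_apply]
    split_ifs <;> simp
  rw [this]
  exact isRoot_of_mem_specSupport h

/-- Relations among totally real numbers in terms of the normalised trace form. -/
theorem relCond_iff_ntr {J K : Type*} [Fintype J] [Fintype K] (x : J → ℝ) (y : K → ℝ)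
    (hx : ∀ j, TotallyReal (x j)) (hy : ∀ k, TotallyReal (y k)) :
    RelCond x y ↔ ∀ l : J ⊕ K → ℤ,
      (∀ o, ∑ p, ntr (Sum.elim x y o * Sum.elim x y p) * (l p : ℚ) = 0) → ∑ o, l o = 0 →
      Even (∑ k, l (Sum.inr k)) := by
  have hxy : ∀ o, TotallyReal (Sum.elim x y o) := by
    rintro (j | k)
    · exact hx j
    · exact hy k
  constructor
  · intro h l h1 h2
    refine h (fun j => l (Sum.inl j)) (fun k => l (Sum.inr k)) ?_ ?_
    · have h3 := (sum_ntr_eq_zero_iff _ hxy (fun o => (l o : ℚ))).1 h1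
      rw [Fintype.sum_sum_type] at h3
      simpa using h3
    · rw [Fintype.sum_sum_type] at h2
      exact h2
  · intro h l m h1 h2
    refine h (Sum.elim l m) ?_ ?_
    · refine (sum_ntr_eq_zero_iff _ hxy (fun o => ((Sum.elim l m o : ℤ) : ℚ))).2 ?_
      rw [Fintype.sum_sum_type]
      simpa using h1
    · rw [Fintype.sum_sum_type]
      simpa using h2

/-- The dual form of the relation condition. -/
theorem relCond_iff_dual {J K : Type*} [Fintype J] [Fintype K] (x : J → ℝ) (y : K → ℝ)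
    (hx : ∀ j, TotallyReal (x j)) (hy : ∀ k, TotallyReal (y k)) :
    RelCond x y ↔ ∃ (z : J → ℚ) (z' : K → ℚ) (c : ℚ),
      (∀ j, ∃ k : ℤ, ∑ i, ntr (x j * x i) * z i + ∑ i, ntr (x j * y i) * z' i + c = 2 * k) ∧
      (∀ j, ∃ k : ℤ, ∑ i, ntr (y j * x i) * z i + ∑ i, ntr (y j * y i) * z' i + c =
        2 * k + 1) := by
  classical
  rw [relCond_iff_ntr x y hx hy]
  set X : J ⊕ K → ℝ := Sum.elim x y with hX
  let f : (J ⊕ K → ℚ) →ₗ[ℚ] ((J ⊕ K → ℚ) × ℚ) :=
    LinearMap.prod (Matrix.mulVecLin (Matrix.of fun o p => ntr (X o * X p)))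
      (∑ o, LinearMap.proj o)
  have hf : ∀ q, f q = (fun o => ∑ p, ntr (X o * X p) * q p, ∑ o, q o) := by
    intro q
    refine Prod.ext ?_ ?_
    · funext o
      simp [f, Matrix.mulVec, dotProduct]
    · simp [f]
  have hmain := even_on_ker_iff f (Sum.elim (fun _ : J => (0 : ℤ)) (fun _ : K => (1 : ℤ)))
  have hleft : (∀ l : J ⊕ K → ℤ, f (fun j => (l j : ℚ)) = 0 →
      Even (∑ j, Sum.elim (fun _ : J => (0 : ℤ)) (fun _ : K => (1 : ℤ)) j * l j)) ↔
      ∀ l : J ⊕ K → ℤ, (∀ o, ∑ p, ntr (X o * X p) * (l p : ℚ) = 0) → ∑ o, l o = 0 →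
      Even (∑ k, l (Sum.inr k)) := by
    refine forall_congr' fun l => ?_
    have h0 : ∑ j, Sum.elim (fun _ : J => (0 : ℤ)) (fun _ : K => (1 : ℤ)) j * l j =
        ∑ k, l (Sum.inr k) := by
      rw [Fintype.sum_sum_type]
      simp
    rw [hf, Prod.mk_eq_zero, and_imp, h0]
    refine imp_congr ?_ (imp_congr ?_ Iff.rfl)
    · exact funext_iff
    · rw [← Int.cast_sum]
      exact Int.cast_eq_zero
  rw [← hleft, hmain]
  constructor
  · rintro ⟨w, φ, hw, hφ⟩
    set Z : J ⊕ K → ℚ := fun o => φ (Pi.single o 1, 0) with hZ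
    have hφ' : ∀ (b : J ⊕ K → ℚ) (t : ℚ), φ (b, t) = ∑ o, b o * Z o + t * φ (0, 1) := by
      intro b t
      have h1 : (b, t) = ∑ o, b o • ((Pi.single o 1 : J ⊕ K → ℚ), (0 : ℚ)) +
          t • ((0 : J ⊕ K → ℚ), (1 : ℚ)) := by
        ext o
        · simp [Prod.fst_sum, Finset.sum_apply, Pi.single_apply, -Fintype.sum_sum_type]
        · simp [Prod.snd_sum, -Fintype.sum_sum_type]
      conv_lhs => rw [h1]
      rw [map_add, map_sum, map_smul, smul_eq_mul]
      congr 1
      refine Finset.sum_congr rfl fun o _ => ?_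
      rw [map_smul, smul_eq_mul]
    have hval : ∀ o, (w o : ℚ) = ∑ p, ntr (X o * X p) * Z p + φ (0, 1) := by
      intro o
      have h1 := hφ (Pi.single o 1)
      rw [hf, hφ'] at h1
      simp only [Pi.single_apply, mul_ite, mul_one, mul_zero, Finset.sum_ite_eq',
        Finset.mem_univ, if_true, one_mul] at h1
      rw [← h1]
      congr 1
      refine Finset.sum_congr rfl fun p _ => ?_
      rw [mul_comm (X p) (X o)]
    refine ⟨fun j => Z (Sum.inl j), fun k => Z (Sum.inr k), φ (0, 1), fun j => ?_, fun j => ?_⟩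
    · obtain ⟨k, hk⟩ := hw (Sum.inl j)
      have h1 := hval (Sum.inl j)
      rw [Fintype.sum_sum_type] at h1
      refine ⟨k, ?_⟩
      simp only [Sum.elim_inl, sub_zero] at hk
      have h2 : (w (Sum.inl j) : ℚ) = 2 * k := by rw [hk]; push_cast; ring
      rw [← h2, h1]
      rfl
    · obtain ⟨k, hk⟩ := hw (Sum.inr j)
      have h1 := hval (Sum.inr j)
      rw [Fintype.sum_sum_type] at h1
      refine ⟨k, ?_⟩
      simp only [Sum.elim_inr] at hk
      have h2 : (w (Sum.inr j) : ℚ) = 2 * k + 1 := by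
        have : w (Sum.inr j) = k + k + 1 := by omega
        rw [this]; push_cast; ring
      rw [← h2, h1]
      rfl
  · rintro ⟨z, z', c, h1, h2⟩
    choose k hk using h1
    choose k' hk' using h2
    refine ⟨Sum.elim (fun j => 2 * k j) (fun j => 2 * k' j + 1),
      (∑ o, (Sum.elim z z' o) • LinearMap.proj o) ∘ₗ LinearMap.fst ℚ _ _ +
        c • LinearMap.snd ℚ _ _, ?_, fun q => ?_⟩
    · rintro (j | j)
      · exact ⟨k j, by simp only [Sum.elim_inl]; ring⟩
      · exact ⟨k' j, by simp only [Sum.elim_inr]; ring⟩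
    · rw [hf]
      simp only [LinearMap.add_apply, LinearMap.comp_apply, LinearMap.fst_apply,
        LinearMap.smul_apply, LinearMap.snd_apply, LinearMap.sum_apply, LinearMap.proj_apply,
        smul_eq_mul]
      have h3 : ∀ o, ((Sum.elim (fun j => 2 * k j) (fun j => 2 * k' j + 1) o : ℤ) : ℚ) =
          ∑ p, ntr (X o * X p) * Sum.elim z z' p + c := by
        rintro (j | j)
        · rw [Fintype.sum_sum_type]
          simp only [Sum.elim_inl, Sum.elim_inr, hX]
          push_cast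
          rw [← hk j]
        · rw [Fintype.sum_sum_type]
          simp only [Sum.elim_inl, Sum.elim_inr, hX]
          push_cast
          rw [← hk' j]
      simp only [h3, add_mul]
      rw [Finset.sum_add_distrib, ← Finset.mul_sum]
      congr 1
      simp only [Finset.mul_sum, Finset.sum_mul]
      rw [Finset.sum_comm]
      refine Finset.sum_congr rfl fun o _ => Finset.sum_congr rfl fun p _ => ?_
      rw [mul_comm (X p) (X o)]
      ring

end Pool.Agent.H79
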