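import Mathlib

/-!
# A Kronecker type theorem for signs

If every integral relation `∑ ℓ_j y_j = 0` satisfies `∏ s_j ^ ℓ_j = 1` (for signs `s_j`), then the
phases `exp(i t y_j)` come simultaneously close to the signs `s_j`.
-/

open Complex MeasureTheory

namespace Pool.Agent.H79

theorem cexp_add_mul_I (a b : ℝ) : Complex.exp (((a + b : ℝ) : ℂ) * I) =
    Complex.exp ((a : ℂ) * I) * Complex.exp ((b : ℂ) * I) := by
  rw [← Complex.exp_add]
  congr 1
  push_cast
  ring

/-- Mean value estimate: the coefficient of a frequency in a bounded exponential sum is bounded by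
the same bound. -/
theorem norm_coeff_le_of_bound {ι : Type*} [Fintype ι] (c : ι → ℂ) (w : ι → ℝ) (B : ℝ)
    (hB : ∀ t : ℝ, ‖∑ g, c g * Complex.exp ((t * w g : ℝ) * I)‖ ≤ B) (w₀ : ℝ) :
    ‖∑ g with w g = w₀, c g‖ ≤ B := by
  classical
  -- shift the frequencies
  have hH : ∀ t : ℝ, ‖∑ g, c g * Complex.exp ((t * (w g - w₀) : ℝ) * I)‖ ≤ B := by
    intro t
    have h1 : ∑ g, c g * Complex.exp ((t * (w g - w₀) : ℝ) * I) =
        (∑ g, c g * Complex.exp ((t * w g : ℝ) * I)) * Complex.exp ((-(t * w₀) : ℝ) * I) := by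
      rw [Finset.sum_mul]
      refine Finset.sum_congr rfl fun g _ => ?_
      rw [mul_assoc, ← cexp_add_mul_I]
      congr 3
      push_cast
      ring
    rw [h1, norm_mul, Complex.norm_exp_ofReal_mul_I, mul_one]
    exact hB t
  set S : ℂ := ∑ g with w g = w₀, c g with hS
  set C : ℝ := ∑ g with ¬ w g = w₀, ‖c g‖ * (2 / |w g - w₀|) with hC
  have hint : ∀ T : ℝ, 0 < T → T * ‖S‖ ≤ B * T + C := by
    intro T hT
    have hcont : ∀ g, IntervalIntegrable
        (fun t : ℝ => c g * Complex.exp ((t * (w g - w₀) : ℝ) * I)) volume 0 T := by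
      intro g
      apply Continuous.intervalIntegrable
      fun_prop
    have hsplit : ∫ t in (0 : ℝ)..T, ∑ g, c g * Complex.exp ((t * (w g - w₀) : ℝ) * I) =
        T * S + ∑ g with ¬ w g = w₀, c g * ((Complex.exp ((T * (w g - w₀) : ℝ) * I) - 1) /
          (((w g - w₀ : ℝ) : ℂ) * I)) := by
      rw [intervalIntegral.integral_finsetSum fun g _ => hcont g,
        ← Finset.sum_filter_add_sum_filter_not _ (fun g => w g = w₀)]
      congr 1
      · rw [hS, Finset.mul_sum]
        refine Finset.sum_congr rfl fun g hg => ?_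
        have hg' : w g = w₀ := (Finset.mem_filter.1 hg).2
        simp only [hg', sub_self, mul_zero, Complex.ofReal_zero, zero_mul, Complex.exp_zero,
          mul_one, intervalIntegral.integral_const, sub_zero, Complex.real_smul]
      · refine Finset.sum_congr rfl fun g hg => ?_
        have hg' : w g - w₀ ≠ 0 := sub_ne_zero.2 (Finset.mem_filter.1 hg).2
        have hne : (((w g - w₀ : ℝ) : ℂ) * I) ≠ 0 :=
          mul_ne_zero (Complex.ofReal_ne_zero.2 hg') I_ne_zero
        rw [intervalIntegral.integral_const_mul]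
        congr 1
        have : ∀ t : ℝ, Complex.exp ((t * (w g - w₀) : ℝ) * I) =
            Complex.exp ((((w g - w₀ : ℝ) : ℂ) * I) * t) := by
          intro t
          congr 1
          push_cast
          ring
        simp only [this]
        rw [integral_exp_mul_complex hne]
        simp
    have hle : ‖∫ t in (0 : ℝ)..T, ∑ g, c g * Complex.exp ((t * (w g - w₀) : ℝ) * I)‖ ≤
        B * |T - 0| :=
      intervalIntegral.norm_integral_le_of_norm_le_const fun t _ => hH t
    rw [sub_zero, abs_of_pos hT] at hle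
    have hrest : ‖∑ g with ¬ w g = w₀, c g * ((Complex.exp ((T * (w g - w₀) : ℝ) * I) - 1) /
          (((w g - w₀ : ℝ) : ℂ) * I))‖ ≤ C := by
      refine (norm_sum_le _ _).trans (Finset.sum_le_sum fun g _ => ?_)
      rw [norm_mul, norm_div, norm_mul, Complex.norm_real, Complex.norm_I, mul_one,
        Real.norm_eq_abs]
      refine mul_le_mul_of_nonneg_left ?_ (norm_nonneg _)
      refine div_le_div_of_nonneg_right ?_ (abs_nonneg _)
      refine (norm_sub_le _ _).trans ?_
      rw [Complex.norm_exp_ofReal_mul_I, norm_one]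
      norm_num
    have hTS : T * ‖S‖ = ‖(T : ℂ) * S‖ := by
      rw [norm_mul, Complex.norm_real, Real.norm_of_nonneg hT.le]
    have hdecomp : (T : ℂ) * S = (∫ t in (0 : ℝ)..T, ∑ g, c g *
        Complex.exp ((t * (w g - w₀) : ℝ) * I)) -
        ∑ g with ¬ w g = w₀, c g * ((Complex.exp ((T * (w g - w₀) : ℝ) * I) - 1) /
          (((w g - w₀ : ℝ) : ℂ) * I)) := by
      rw [hsplit]
      ring
    rw [hTS, hdecomp]
    exact (norm_sub_le _ _).trans (add_le_add hle hrest)
  by_contra hlt
  push Not at hlt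
  have hC0 : 0 ≤ C := Finset.sum_nonneg fun g _ => by positivity
  have hd : 0 < ‖S‖ - B := sub_pos.2 hlt
  have h1 := hint ((C + 1) / (‖S‖ - B)) (by positivity)
  have h2 : (C + 1) / (‖S‖ - B) * (‖S‖ - B) = C + 1 := div_mul_cancel₀ _ hd.ne'
  nlinarith

variable {J : Type*} [Fintype J]

/-- The homogeneous Kronecker theorem for signs. -/
theorem kronecker_sign (y : J → ℝ) (s : J → ℤˣ)
    (h : ∀ l : J → ℤ, ∑ j, (l j : ℝ) * y j = 0 → ∏ j, s j ^ l j = 1) (ε : ℝ) (hε : 0 < ε) :
    ∃ t : ℝ, ∀ j, ‖Complex.exp ((t * y j : ℝ) * I) - ((s j : ℤ) : ℂ)‖ < ε := by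
  classical
  by_contra hcon
  push Not at hcon
  set N : ℕ := Fintype.card J with hN
  -- the signs and frequencies indexed by `Option J`
  set z : Option J → ℤˣ := fun o => o.elim 1 s with hz
  set x : Option J → ℝ := fun o => o.elim 0 y with hx
  set F : ℝ → ℂ := fun t => ∑ o : Option J, (((z o : ℤˣ) : ℤ) : ℂ) *
    Complex.exp ((t * x o : ℝ) * I) with hF
  -- sup bound
  have hsq : ∀ w : ℂ, ‖w‖ = 1 → ‖1 + w‖ ^ 2 = 4 - ‖w - 1‖ ^ 2 := by
    intro w hw
    have hw' : w.re * w.re + w.im * w.im = 1 := by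
      rw [Complex.norm_def, Real.sqrt_eq_one] at hw
      rwa [Complex.normSq_apply] at hw
    rw [Complex.sq_norm, Complex.sq_norm, Complex.normSq_apply, Complex.normSq_apply]
    simp only [Complex.add_re, Complex.one_re, Complex.add_im, Complex.one_im, zero_add,
      Complex.sub_re, Complex.sub_im, sub_zero]
    linear_combination 2 * hw'
  obtain ⟨M, hM0, hMN, hM⟩ : ∃ M : ℝ, 0 < M ∧ M < N + 1 ∧ ∀ t, ‖F t‖ ≤ M := by
    have hbound : ∀ t, ‖F t‖ ≤ Real.sqrt (4 - ε ^ 2) + (N - 1) := by
      intro t
      obtain ⟨j, hj⟩ := hcon t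
      set a : J → ℂ := fun j => ((s j : ℤ) : ℂ) * Complex.exp ((t * y j : ℝ) * I) with ha
      have hs1 : ∀ j, ((s j : ℤ) : ℂ) * ((s j : ℤ) : ℂ) = 1 := by
        intro j
        rw [← Int.cast_mul, ← Units.val_mul, Int.units_mul_self]
        simp
      have hsn : ∀ j, ‖((s j : ℤ) : ℂ)‖ = 1 := by
        intro j
        rcases Int.units_eq_one_or (s j) with h | h <;> simp [h]
      have ha1 : ∀ j, ‖a j‖ = 1 := by
        intro j
        rw [ha]
        simp only
        rw [norm_mul, hsn, Complex.norm_exp_ofReal_mul_I, mul_one]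
      have haj : ε ≤ ‖a j - 1‖ := by
        have : a j - 1 = ((s j : ℤ) : ℂ) *
            (Complex.exp ((t * y j : ℝ) * I) - ((s j : ℤ) : ℂ)) := by
          rw [ha]
          simp only
          rw [mul_sub, hs1]
        rw [this, norm_mul, hsn, one_mul]
        exact hj
      have hFt : F t = (1 + a j) + ∑ i ∈ Finset.univ.erase j, a i := by
        rw [hF]
        simp only
        rw [Fintype.sum_option]
        simp only [hz, hx, Option.elim_none, Option.elim_some, Units.val_one, Int.cast_one,
          mul_zero, Complex.ofReal_zero, zero_mul, Complex.exp_zero, mul_one]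
        rw [← Finset.add_sum_erase _ _ (Finset.mem_univ j), add_assoc]
      rw [hFt]
      refine (norm_add_le _ _).trans (add_le_add ?_ ?_)
      · rw [← Real.sqrt_sq (norm_nonneg (1 + a j)), hsq _ (ha1 j)]
        apply Real.sqrt_le_sqrt
        have : ε ^ 2 ≤ ‖a j - 1‖ ^ 2 := pow_le_pow_left₀ hε.le haj 2
        linarith
      · refine (norm_sum_le _ _).trans ?_
        simp only [ha1, Finset.sum_const, nsmul_eq_mul, mul_one]
        rw [Finset.card_erase_of_mem (Finset.mem_univ j), Finset.card_univ, ← hN]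
        have : 1 ≤ N := Fintype.card_pos_iff.2 ⟨j⟩
        rw [Nat.cast_sub this, Nat.cast_one]
    have hlt : Real.sqrt (4 - ε ^ 2) + (N - 1) < N + 1 := by
      have : Real.sqrt (4 - ε ^ 2) < 2 := by
        rw [Real.sqrt_lt' (by norm_num)]
        nlinarith
      linarith
    refine ⟨(max 0 (Real.sqrt (4 - ε ^ 2) + (N - 1)) + (N + 1)) / 2, ?_, ?_, fun t => ?_⟩
    · have : (0 : ℝ) ≤ max 0 (Real.sqrt (4 - ε ^ 2) + (N - 1)) := le_max_left _ _
      have : (0 : ℝ) ≤ N := Nat.cast_nonneg _
      linarith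
    · have : max 0 (Real.sqrt (4 - ε ^ 2) + ((N : ℝ) - 1)) < N + 1 := by
        rw [max_lt_iff]
        exact ⟨by positivity, hlt⟩
      linarith
    · have h1 := hbound t
      have h2 : Real.sqrt (4 - ε ^ 2) + ((N : ℝ) - 1) ≤
          max 0 (Real.sqrt (4 - ε ^ 2) + (N - 1)) := le_max_right _ _
      have h3 : (0 : ℝ) ≤ max 0 (Real.sqrt (4 - ε ^ 2) + (N - 1)) := le_max_left _ _
      have h4 : max 0 (Real.sqrt (4 - ε ^ 2) + ((N : ℝ) - 1)) < N + 1 := by
        rw [max_lt_iff]
        exact ⟨by positivity, hlt⟩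
      linarith
  -- main inequality
  have hmain : ∀ p : ℕ, ((N : ℝ) + 1) ^ p ≤ ((p : ℝ) + 1) ^ N * M ^ p := by
    intro p
    set X : (Fin p → Option J) → ℝ := fun g => ∑ i, x (g i) with hX
    set sg : (Fin p → Option J) → ℤˣ := fun g => ∏ i, z (g i) with hsg
    have hFp : ∀ t, F t ^ p = ∑ g : Fin p → Option J, (((sg g : ℤˣ) : ℤ) : ℂ) *
        Complex.exp ((t * X g : ℝ) * I) := by
      intro t
      rw [hF]
      simp only
      rw [Fintype.sum_pow]
      refine Finset.sum_congr rfl fun g _ => ?_
      rw [Finset.prod_mul_distrib, ← Complex.exp_sum]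
      congr 1
      · rw [hsg]
        push_cast
        rfl
      · congr 1
        rw [hX]
        push_cast
        rw [Finset.mul_sum, Finset.sum_mul]
    have hcoef : ∀ w₀, ‖∑ g with X g = w₀, (((sg g : ℤˣ) : ℤ) : ℂ)‖ ≤ M ^ p := by
      intro w₀
      refine norm_coeff_le_of_bound _ X (M ^ p) (fun t => ?_) w₀
      rw [← hFp, norm_pow]
      exact pow_le_pow_left₀ (norm_nonneg _) (hM t) p
    -- counts
    set cnt : (Fin p → Option J) → (J → Fin (p + 1)) := fun g j =>
      ⟨(Finset.univ.filter fun i => g i = some j).card, by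
        refine Nat.lt_succ_of_le ?_
        exact (Finset.card_le_univ _).trans (by simp)⟩ with hcnt
    have hXc : ∀ g, X g = ∑ j, ((cnt g j : ℕ) : ℝ) * y j := by
      intro g
      rw [hX]
      simp only
      have h1 : ∀ i, x (g i) = ∑ j, if g i = some j then y j else 0 := by
        intro i
        rcases hgi : g i with _ | j₀
        · simp [hx]
        · simp [hx]
      simp only [h1]
      rw [Finset.sum_comm]
      refine Finset.sum_congr rfl fun j _ => ?_
      rw [← Finset.sum_filter, Finset.sum_const, nsmul_eq_mul]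
    have hsc : ∀ g, sg g = ∏ j, s j ^ ((cnt g j : ℕ) : ℤ) := by
      intro g
      rw [hsg]
      simp only
      have h1 : ∀ i, z (g i) = ∏ j, if g i = some j then s j else 1 := by
        intro i
        rcases hgi : g i with _ | j₀
        · simp [hz]
        · simp [hz]
      simp only [h1]
      rw [Finset.prod_comm]
      refine Finset.prod_congr rfl fun j _ => ?_
      rw [← Finset.prod_filter, Finset.prod_const, zpow_natCast]
    have hsame : ∀ g g', X g = X g' → sg g = sg g' := by
      intro g g' hgg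
      have hrel := h (fun j => ((cnt g j : ℕ) : ℤ) - ((cnt g' j : ℕ) : ℤ)) (by
        push_cast
        simp only [sub_mul]
        rw [Finset.sum_sub_distrib, ← hXc, ← hXc, hgg, sub_self])
      simp only [zpow_sub] at hrel
      rw [Finset.prod_mul_distrib, Finset.prod_inv_distrib, ← hsc, ← hsc] at hrel
      exact mul_inv_eq_one.1 hrel
    -- pigeonhole
    have hcard : Fintype.card (Fin p → Option J) = (N + 1) ^ p := by
      simp [hN]
    have hcardc : Fintype.card (J → Fin (p + 1)) = (p + 1) ^ N := by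
      simp [hN]
    have hfib : ∀ k : J → Fin (p + 1),
        (((Finset.univ.filter fun g => cnt g = k).card : ℕ) : ℝ) ≤ M ^ p := by
      intro k
      by_cases hne : (Finset.univ.filter fun g => cnt g = k).Nonempty
      · obtain ⟨g₀, hg₀⟩ := hne
        have hg₀' : cnt g₀ = k := (Finset.mem_filter.1 hg₀).2
        have hsub : (Finset.univ.filter fun g => cnt g = k) ⊆
            Finset.univ.filter fun g => X g = X g₀ := by
          intro g hg
          have hg' : cnt g = k := (Finset.mem_filter.1 hg).2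
          refine Finset.mem_filter.2 ⟨Finset.mem_univ _, ?_⟩
          rw [hXc, hXc, hg', hg₀']
        have h1 := hcoef (X g₀)
        have h2 : ∑ g with X g = X g₀, (((sg g : ℤˣ) : ℤ) : ℂ) =
            (((Finset.univ.filter fun g => X g = X g₀).card : ℕ) : ℂ) *
              (((sg g₀ : ℤˣ) : ℤ) : ℂ) := by
          rw [← nsmul_eq_mul, ← Finset.sum_const]
          refine Finset.sum_congr rfl fun g hg => ?_
          rw [hsame g g₀ (Finset.mem_filter.1 hg).2]
        have h3 : ‖(((sg g₀ : ℤˣ) : ℤ) : ℂ)‖ = 1 := by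
          rcases Int.units_eq_one_or (sg g₀) with h | h <;> simp [h]
        rw [h2, norm_mul, h3, mul_one, Complex.norm_natCast] at h1
        refine le_trans ?_ h1
        exact_mod_cast Finset.card_le_card hsub
      · rw [Finset.not_nonempty_iff_eq_empty.1 hne]
        simp only [Finset.card_empty, Nat.cast_zero]
        positivity
    have htotal : (((N + 1) ^ p : ℕ) : ℝ) =
        ∑ k : J → Fin (p + 1), (((Finset.univ.filter fun g => cnt g = k).card : ℕ) : ℝ) := by
      rw [← hcard, ← Finset.card_univ, ← Nat.cast_sum]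
      congr 1
      exact Finset.card_eq_sum_card_fiberwise (fun g _ => Finset.mem_coe.2 (Finset.mem_univ _))
    have h5 : (((N + 1) ^ p : ℕ) : ℝ) ≤ ((p + 1) ^ N : ℕ) * M ^ p := by
      rw [htotal]
      refine (Finset.sum_le_sum fun k _ => hfib k).trans ?_
      rw [Finset.sum_const, Finset.card_univ, hcardc, nsmul_eq_mul]
    push_cast at h5
    exact h5
  -- contradiction for large `p`
  set r : ℝ := (N + 1) / M with hr
  have hr1 : 1 < r := (one_lt_div hM0).2 hMN
  have hlim := tendsto_pow_const_div_const_pow_of_one_lt N hr1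
  have hlim' := (Filter.tendsto_add_atTop_iff_nat 1).2 hlim
  have hev := (hlim'.eventually (gt_mem_nhds (show (0 : ℝ) < 1 / r by positivity))).exists
  obtain ⟨p, hp⟩ := hev
  have h6 := hmain p
  have h7 : r ^ p ≤ ((p : ℝ) + 1) ^ N := by
    rw [hr, div_pow, div_le_iff₀ (by positivity)]
    exact h6
  rw [div_lt_div_iff₀ (by positivity) (by positivity)] at hp
  push_cast at hp
  rw [pow_succ] at hp
  nlinarith [hr1]

end Pool.Agent.H79
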