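import Pool.Agent.H79.Walk
import Pool.Agent.H79.Kronecker

/-!
# Phase conditions and integral relations
-/

open Complex Matrix

namespace Pool.Agent.H79

/-- The phases of the points of `S` are close to some `γ` and those of `T` close to `-γ`. -/
def PhaseSet (S T : Set ℝ) : Prop :=
  ∀ ε : ℝ, 0 < ε → ∃ (t : ℝ) (γ : ℂ), ‖γ‖ = 1 ∧
    (∀ x ∈ S, ‖Complex.exp ((t * x : ℝ) * I) - γ‖ < ε) ∧
    (∀ x ∈ T, ‖Complex.exp ((t * x : ℝ) * I) + γ‖ < ε)

/-- The relation condition: every integral relation with coefficient sum zero is even on the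
`T`-part. -/
def RelCond {J K : Type*} [Fintype J] [Fintype K] (x : J → ℝ) (y : K → ℝ) : Prop :=
  ∀ (l : J → ℤ) (m : K → ℤ), ∑ j, (l j : ℝ) * x j + ∑ k, (m k : ℝ) * y k = 0 →
    ∑ j, l j + ∑ k, m k = 0 → Even (∑ k, m k)

theorem norm_pow_sub_one_le (w : ℂ) (hw : ‖w‖ = 1) (n : ℕ) : ‖w ^ n - 1‖ ≤ n * ‖w - 1‖ := by
  induction n with
  | zero => simp
  | succ n ih =>
    have : w ^ (n + 1) - 1 = w ^ n * (w - 1) + (w ^ n - 1) := by ring
    rw [this]
    refine (norm_add_le _ _).trans ?_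
    rw [norm_mul, norm_pow, hw, one_pow, one_mul]
    push_cast
    linarith

theorem norm_zpow_sub_one_le (w : ℂ) (hw : ‖w‖ = 1) (n : ℤ) : ‖w ^ n - 1‖ ≤ |(n : ℝ)| * ‖w - 1‖ := by
  rcases Int.natAbs_eq n with h | h
  · rw [h, zpow_natCast]
    refine (norm_pow_sub_one_le w hw _).trans (le_of_eq ?_)
    simp
  · rw [h, _root_.zpow_neg, zpow_natCast]
    have hne : w ^ n.natAbs ≠ 0 := by
      intro h0
      have : ‖w ^ n.natAbs‖ = 0 := by rw [h0, norm_zero]
      rw [norm_pow, hw, one_pow] at this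
      exact one_ne_zero this
    have : (w ^ n.natAbs)⁻¹ - 1 = -((w ^ n.natAbs)⁻¹ * (w ^ n.natAbs - 1)) := by
      field_simp
      ring
    rw [this, norm_neg, norm_mul, norm_inv, norm_pow, hw, one_pow, inv_one, one_mul]
    refine (norm_pow_sub_one_le w hw _).trans (le_of_eq ?_)
    simp

theorem norm_prod_sub_one_le {ι : Type*} (s : Finset ι) (w : ι → ℂ) (hw : ∀ i, ‖w i‖ = 1) :
    ‖∏ i ∈ s, w i - 1‖ ≤ ∑ i ∈ s, ‖w i - 1‖ := by
  classical
  induction s using Finset.induction_on with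
  | empty => simp
  | insert a s ha ih =>
    rw [Finset.prod_insert ha, Finset.sum_insert ha]
    have : w a * ∏ i ∈ s, w i - 1 = w a * (∏ i ∈ s, w i - 1) + (w a - 1) := by ring
    rw [this]
    refine (norm_add_le _ _).trans ?_
    rw [norm_mul, hw, one_mul]
    linarith

theorem phase_zpow (t x : ℝ) (n : ℤ) :
    Complex.exp ((t * x : ℝ) * I) ^ n = Complex.exp ((t * (n * x) : ℝ) * I) := by
  rw [← Complex.exp_int_mul]
  congr 1
  push_cast
  ring

theorem prod_phase {ι : Type*} (s : Finset ι) (t : ℝ) (x : ι → ℝ) :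
    ∏ i ∈ s, Complex.exp ((t * x i : ℝ) * I) = Complex.exp ((t * ∑ i ∈ s, x i : ℝ) * I) := by
  rw [← Complex.exp_sum]
  congr 1
  push_cast
  rw [Finset.mul_sum, Finset.sum_mul]

theorem prod_zpow_const {ι : Type*} (c : ℂ) (hc : c ≠ 0) (s : Finset ι) (l : ι → ℤ) :
    ∏ j ∈ s, c ^ l j = c ^ ∑ j ∈ s, l j := by
  classical
  induction s using Finset.induction_on with
  | empty => simp
  | insert a s ha ih =>
    rw [Finset.prod_insert ha, Finset.sum_insert ha, ih, zpow_add₀ hc]

theorem exp_shift (t a b : ℝ) (γ : ℂ) (h : Complex.exp ((t * (a - b) : ℝ) * I) = γ) :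
    Complex.exp ((t * a : ℝ) * I) = γ * Complex.exp ((t * b : ℝ) * I) := by
  rw [← h, ← Complex.exp_add]
  congr 1
  push_cast
  ring

variable {J K : Type*} [Fintype J] [Fintype K]

/-- Pretty good phases are governed by the parity of the integral relations. -/
theorem phaseSet_iff_relCond (x : J → ℝ) (y : K → ℝ) :
    PhaseSet (Set.range x) (Set.range y) ↔ RelCond x y := by
  classical
  constructor
  · intro h l m hrel hsum
    by_contra hodd
    rw [Int.not_even_iff_odd] at hodd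
    set C : ℝ := ∑ j, |(l j : ℝ)| + ∑ k, |(m k : ℝ)| with hC
    have hC0 : 0 ≤ C := by positivity
    obtain ⟨t, γ, hγ, hx, hy⟩ := h (1 / (C + 1)) (by positivity)
    have hγ0 : γ ≠ 0 := by
      intro h0
      rw [h0, norm_zero] at hγ
      exact zero_ne_one hγ
    have hγi : ‖γ⁻¹‖ = 1 := by rw [norm_inv, hγ, inv_one]
    set a : J → ℂ := fun j => Complex.exp ((t * x j : ℝ) * I) * γ⁻¹ with ha
    set b : K → ℂ := fun k => Complex.exp ((t * y k : ℝ) * I) * (-γ⁻¹) with hb
    have ha1 : ∀ j, ‖a j‖ = 1 := fun j => by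
      simp only [ha]; rw [norm_mul, Complex.norm_exp_ofReal_mul_I, hγi, mul_one]
    have hb1 : ∀ k, ‖b k‖ = 1 := fun k => by
      simp only [hb]; rw [norm_mul, Complex.norm_exp_ofReal_mul_I, norm_neg, hγi, mul_one]
    have ha2 : ∀ j, ‖a j - 1‖ < 1 / (C + 1) := fun j => by
      have : a j - 1 = (Complex.exp ((t * x j : ℝ) * I) - γ) * γ⁻¹ := by
        simp only [ha]; rw [sub_mul, mul_inv_cancel₀ hγ0]
      rw [this, norm_mul, hγi, mul_one]
      exact hx _ ⟨j, rfl⟩
    have hb2 : ∀ k, ‖b k - 1‖ < 1 / (C + 1) := fun k => by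
      have : b k - 1 = -((Complex.exp ((t * y k : ℝ) * I) + γ) * γ⁻¹) := by
        simp only [hb]; rw [add_mul, mul_inv_cancel₀ hγ0]; ring
      rw [this, norm_neg, norm_mul, hγi, mul_one]
      exact hy _ ⟨k, rfl⟩
    have hprod : (∏ j, a j ^ l j) * (∏ k, b k ^ m k) = -1 := by
      have h1 : ∏ j, a j ^ l j = Complex.exp ((t * ∑ j, (l j : ℝ) * x j : ℝ) * I) *
          (γ⁻¹) ^ (∑ j, l j) := by
        simp only [ha, mul_zpow, phase_zpow]
        rw [Finset.prod_mul_distrib, prod_phase, prod_zpow_const _ (inv_ne_zero hγ0)]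
      have h2 : ∏ k, b k ^ m k = Complex.exp ((t * ∑ k, (m k : ℝ) * y k : ℝ) * I) *
          (-γ⁻¹) ^ (∑ k, m k) := by
        simp only [hb, mul_zpow, phase_zpow]
        rw [Finset.prod_mul_distrib, prod_phase,
          prod_zpow_const _ (neg_ne_zero.2 (inv_ne_zero hγ0))]
      have h3 : (-γ⁻¹) ^ (∑ k, m k) = -((γ⁻¹) ^ (∑ k, m k)) := Odd.neg_zpow hodd _
      rw [h1, h2, h3]
      have h4 : ∀ A B C D : ℂ, A * B * (C * (-D)) = -((A * C) * (B * D)) := fun A B C D => by ring
      rw [h4, ← zpow_add₀ (inv_ne_zero hγ0), hsum, zpow_zero, mul_one, ← cexp_add_mul_I,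
        ← mul_add, hrel]
      simp
    have hbound : ‖(∏ j, a j ^ l j) * (∏ k, b k ^ m k) - 1‖ ≤ C * (1 / (C + 1)) := by
      have hap : ∀ j, ‖a j ^ l j‖ = 1 := fun j => by rw [norm_zpow, ha1, _root_.one_zpow]
      have hbp : ∀ k, ‖b k ^ m k‖ = 1 := fun k => by rw [norm_zpow, hb1, _root_.one_zpow]
      have h1 := norm_prod_sub_one_le Finset.univ (fun j => a j ^ l j) hap
      have h2 := norm_prod_sub_one_le Finset.univ (fun k => b k ^ m k) hbp
      have h3 : ‖∏ j, a j ^ l j‖ = 1 := by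
        rw [norm_prod]
        exact Finset.prod_eq_one fun j _ => hap j
      have h4 : (∏ j, a j ^ l j) * (∏ k, b k ^ m k) - 1 =
          (∏ j, a j ^ l j) * ((∏ k, b k ^ m k) - 1) + ((∏ j, a j ^ l j) - 1) := by ring
      rw [h4]
      refine (norm_add_le _ _).trans ?_
      rw [norm_mul, h3, one_mul]
      have h5 : ∑ j, ‖a j ^ l j - 1‖ ≤ ∑ j, |(l j : ℝ)| * (1 / (C + 1)) :=
        Finset.sum_le_sum fun j _ => (norm_zpow_sub_one_le _ (ha1 j) _).trans
          (mul_le_mul_of_nonneg_left (ha2 j).le (abs_nonneg _))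
      have h6 : ∑ k, ‖b k ^ m k - 1‖ ≤ ∑ k, |(m k : ℝ)| * (1 / (C + 1)) :=
        Finset.sum_le_sum fun k _ => (norm_zpow_sub_one_le _ (hb1 k) _).trans
          (mul_le_mul_of_nonneg_left (hb2 k).le (abs_nonneg _))
      rw [← Finset.sum_mul] at h5 h6
      rw [hC, add_mul]
      linarith
    rw [hprod] at hbound
    have h7 : ‖(-1 : ℂ) - 1‖ = 2 := by norm_num
    rw [h7, mul_one_div, le_div_iff₀ (by positivity)] at hbound
    linarith
  · intro h
    -- reference point
    rcases isEmpty_or_nonempty J with hJ | ⟨⟨j₀⟩⟩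
    · rcases isEmpty_or_nonempty K with hK | ⟨⟨k₀⟩⟩
      · intro ε _
        refine ⟨0, 1, norm_one, ?_, ?_⟩
        · rintro _ ⟨j, _⟩
          exact hJ.elim j
        · rintro _ ⟨k, _⟩
          exact hK.elim k
      · intro ε hε
        obtain ⟨t, ht⟩ := kronecker_sign (fun k => y k - y k₀) (fun _ : K => (1 : ℤˣ))
          (fun _ _ => by simp) ε hε
        refine ⟨t, -Complex.exp ((t * y k₀ : ℝ) * I), ?_, ?_, ?_⟩
        · rw [norm_neg, Complex.norm_exp_ofReal_mul_I]
        · rintro _ ⟨j, _⟩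
          exact hJ.elim j
        · rintro _ ⟨k, rfl⟩
          have h1 := ht k
          simp only [Units.val_one, Int.cast_one] at h1
          rw [exp_shift t (y k) (y k₀) _ rfl, ← sub_eq_add_neg]
          have h2 : ∀ A B : ℂ, A * B - B = (A - 1) * B := fun A B => by ring
          rw [h2, norm_mul, Complex.norm_exp_ofReal_mul_I, mul_one]
          exact h1
    · intro ε hε
      have hrel : ∀ l : J ⊕ K → ℤ,
          ∑ o, (l o : ℝ) * (Sum.elim (fun j => x j - x j₀) (fun k => y k - x j₀) o) = 0 →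
          ∏ o, (Sum.elim (fun _ : J => (1 : ℤˣ)) (fun _ : K => (-1 : ℤˣ)) o) ^ l o = 1 := by
        intro l hl
        rw [Fintype.sum_sum_type] at hl
        rw [Fintype.prod_sum_type]
        simp only [Sum.elim_inl, Sum.elim_inr, _root_.one_zpow, Finset.prod_const_one, one_mul] at hl ⊢
        set c : ℤ := ∑ j, l (Sum.inl j) + ∑ k, l (Sum.inr k) with hc
        have heven := h (fun j => l (Sum.inl j) - if j = j₀ then c else 0)
          (fun k => l (Sum.inr k)) (by
            have h1 : ∑ j, (((l (Sum.inl j) - if j = j₀ then c else 0 : ℤ)) : ℝ) * x j =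
                ∑ j, (l (Sum.inl j) : ℝ) * x j - c * x j₀ := by
              have : ∀ j, (((l (Sum.inl j) - if j = j₀ then c else 0 : ℤ)) : ℝ) * x j =
                  (l (Sum.inl j) : ℝ) * x j - if j = j₀ then (c : ℝ) * x j₀ else 0 := by
                intro j
                split_ifs with hj
                · rw [hj]; push_cast; ring
                · push_cast; ring
              simp only [this]
              rw [Finset.sum_sub_distrib, Finset.sum_ite_eq' Finset.univ j₀]
              simp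
            rw [h1]
            have h2 : ∑ j, (l (Sum.inl j) : ℝ) * (x j - x j₀) =
                ∑ j, (l (Sum.inl j) : ℝ) * x j - (∑ j, (l (Sum.inl j) : ℝ)) * x j₀ := by
              simp only [mul_sub]
              rw [Finset.sum_sub_distrib, Finset.sum_mul]
            have h3 : ∑ k, (l (Sum.inr k) : ℝ) * (y k - x j₀) =
                ∑ k, (l (Sum.inr k) : ℝ) * y k - (∑ k, (l (Sum.inr k) : ℝ)) * x j₀ := by
              simp only [mul_sub]
              rw [Finset.sum_sub_distrib, Finset.sum_mul]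
            rw [h2, h3] at hl
            rw [hc]
            push_cast
            linarith) (by
            rw [Finset.sum_sub_distrib, Finset.sum_ite_eq' Finset.univ j₀]
            simp only [Finset.mem_univ, if_true]
            rw [hc]
            ring)
        have h4 : ∏ k : K, (-1 : ℤˣ) ^ l (Sum.inr k) = (-1 : ℤˣ) ^ ∑ k, l (Sum.inr k) := by
          have : ∀ s : Finset K, ∏ k ∈ s, (-1 : ℤˣ) ^ l (Sum.inr k) =
              (-1 : ℤˣ) ^ ∑ k ∈ s, l (Sum.inr k) := by
            intro s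
            induction s using Finset.induction_on with
            | empty => simp
            | insert a s ha ih =>
              rw [Finset.prod_insert ha, Finset.sum_insert ha, ih, _root_.zpow_add]
          exact this Finset.univ
        rw [h4]
        exact Even.neg_one_zpow heven
      obtain ⟨t, ht⟩ := kronecker_sign
        (Sum.elim (fun j => x j - x j₀) (fun k => y k - x j₀)) _ hrel ε hε
      refine ⟨t, Complex.exp ((t * x j₀ : ℝ) * I), Complex.norm_exp_ofReal_mul_I _, ?_, ?_⟩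
      · rintro _ ⟨j, rfl⟩
        have h1 := ht (Sum.inl j)
        simp only [Sum.elim_inl, Units.val_one, Int.cast_one] at h1
        rw [exp_shift t (x j) (x j₀) _ rfl]
        have h2 : ∀ A B : ℂ, A * B - B = (A - 1) * B := fun A B => by ring
        rw [h2, norm_mul, Complex.norm_exp_ofReal_mul_I, mul_one]
        exact h1
      · rintro _ ⟨k, rfl⟩
        have h1 := ht (Sum.inr k)
        simp only [Sum.elim_inr, Units.val_neg, Units.val_one, Int.cast_neg, Int.cast_one,
          sub_neg_eq_add] at h1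
        rw [exp_shift t (y k) (x j₀) _ rfl]
        have h2 : ∀ A B : ℂ, A * B + B = (A + 1) * B := fun A B => by ring
        rw [h2, norm_mul, Complex.norm_exp_ofReal_mul_I, mul_one]
        exact h1

/-- The support of a vector `a` with respect to a real symmetric matrix `A`: the eigenvalues with
an eigenvector not orthogonal to `a`. -/
def specSupport {V : Type*} [Fintype V] (A : Matrix V V ℝ) (a : V → ℝ) : Set ℝ :=
  {θ | ∃ y : V → ℝ, A *ᵥ y = θ • y ∧ y ⬝ᵥ a ≠ 0}

theorem specSupport_eq {V : Type*} [Fintype V] [DecidableEq V] {A Q : Matrix V V ℝ}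
    {lam : V → ℝ} (hQ : Q * Qᵀ = 1) (hQ' : Qᵀ * Q = 1)
    (hA : A = Q * Matrix.diagonal lam * Qᵀ) (a : V → ℝ) :
    specSupport A a = {θ | ∃ i, lam i = θ ∧ (Qᵀ *ᵥ a) i ≠ 0} := by
  ext θ
  simp only [specSupport]
  constructor
  · rintro ⟨y, hy, hya⟩
    have h1 : ∀ i, lam i * (Qᵀ *ᵥ y) i = θ * (Qᵀ *ᵥ y) i := by
      intro i
      have h2 : Qᵀ *ᵥ (A *ᵥ y) = Matrix.diagonal lam *ᵥ (Qᵀ *ᵥ y) := by
        rw [hA]
        simp only [Matrix.mulVec_mulVec, ← Matrix.mul_assoc, hQ', Matrix.one_mul]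
      rw [hy, Matrix.mulVec_smul] at h2
      have h3 := congrFun h2 i
      rw [Matrix.mulVec_diagonal] at h3
      simpa using h3.symm
    have h4 : y ⬝ᵥ a = ∑ i, (Qᵀ *ᵥ y) i * (Qᵀ *ᵥ a) i := by
      have : y ⬝ᵥ a = (Qᵀ *ᵥ y) ⬝ᵥ (Qᵀ *ᵥ a) := by
        rw [Matrix.dotProduct_mulVec, Matrix.vecMul_transpose, Matrix.mulVec_mulVec, hQ,
          Matrix.one_mulVec]
      exact this
    rw [h4] at hya
    obtain ⟨i, _, hi⟩ := Finset.exists_ne_zero_of_sum_ne_zero hya
    refine ⟨i, ?_, right_ne_zero_of_mul hi⟩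
    exact mul_right_cancel₀ (left_ne_zero_of_mul hi) (h1 i)
  · rintro ⟨i, rfl, hi⟩
    refine ⟨fun w => Q w i, ?_, ?_⟩
    · have h1 : (fun w => Q w i) = Q *ᵥ Pi.single i 1 := by
        funext w
        simp
      rw [h1, hA]
      simp only [Matrix.mulVec_mulVec]
      rw [Matrix.mul_assoc _ Qᵀ Q, hQ', Matrix.mul_one]
      funext w
      rw [← Matrix.mulVec_mulVec, Matrix.mulVec_single_one]
      simp [Matrix.mulVec, dotProduct, Matrix.diagonal_apply, Matrix.col_apply, mul_comm]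
    · exact hi

/-- Pretty good state transfer in terms of the spectral supports of `e_u + e_v` and
`e_u - e_v`. -/
theorem PGST_iff_phaseSet {V : Type*} [Fintype V] [DecidableEq V] (G : SimpleGraph V)
    [DecidableRel G.Adj] (u v : V) :
    PGST G u v ↔ PhaseSet (specSupport (G.adjMatrix ℝ) (Pi.single u 1 + Pi.single v 1))
      (specSupport (G.adjMatrix ℝ) (Pi.single u 1 - Pi.single v 1)) := by
  obtain ⟨Q, lam, hQ, hQ', hA⟩ := exists_spectral (G.adjMatrix ℝ) (G.isSymm_adjMatrix)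
  rw [PGST_iff_phaseCond G hQ hA, specSupport_eq hQ hQ' hA, specSupport_eq hQ hQ' hA]
  have h1 : ∀ i, (Qᵀ *ᵥ (Pi.single u 1 + Pi.single v 1)) i = Q u i + Q v i := by
    intro i
    rw [Matrix.mulVec_add]
    simp
  have h2 : ∀ i, (Qᵀ *ᵥ (Pi.single u 1 - Pi.single v 1)) i = Q u i - Q v i := by
    intro i
    rw [Matrix.mulVec_sub]
    simp
  simp only [h1, h2]
  unfold PhaseCond PhaseSet
  refine forall₂_congr fun ε _ => exists₂_congr fun t γ => and_congr_right fun _ => ?_
  constructor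
  · intro h
    refine ⟨?_, ?_⟩
    · rintro _ ⟨i, rfl, hi⟩
      exact (h i).1 hi
    · rintro _ ⟨i, rfl, hi⟩
      exact (h i).2 hi
  · rintro ⟨hs, ht⟩ i
    exact ⟨fun hi => hs _ ⟨i, rfl, hi⟩, fun hi => ht _ ⟨i, rfl, hi⟩⟩

end Pool.Agent.H79
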