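import Mathlib

/-!
# Pretty good state transfer: spectral part

Phase 1: reduction of pretty good state transfer to a condition on phases.
-/

open Matrix Complex

namespace Pool.Agent.H79

variable {V : Type*} [Fintype V] [DecidableEq V]

/-- The transition matrix `exp(i t A)` of the continuous-time quantum walk on `G`. -/
noncomputable def transition (G : SimpleGraph V) [DecidableRel G.Adj] (t : ℝ) : Matrix V V ℂ :=
  NormedSpace.exp ((Complex.I * (t : ℂ)) • G.adjMatrix ℂ)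

/-- Pretty good state transfer between `u` and `v`: the modulus of the `(u, v)` entry of the
transition matrix comes arbitrarily close to `1`. -/
def PGST (G : SimpleGraph V) [DecidableRel G.Adj] (u v : V) : Prop :=
  ∀ ε : ℝ, 0 < ε → ∃ t : ℝ, 1 - ε < ‖transition G t u v‖

/-- Spectral data of a real symmetric matrix: an orthogonal matrix `Q` and real numbers `lam`
with `A = Q diag(lam) Qᵀ`. -/
theorem exists_spectral (A : Matrix V V ℝ) (hA : A.IsSymm) :
    ∃ (Q : Matrix V V ℝ) (lam : V → ℝ), Q * Qᵀ = 1 ∧ Qᵀ * Q = 1 ∧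
      A = Q * Matrix.diagonal lam * Qᵀ := by
  have hH : A.IsHermitian := by
    rw [Matrix.IsHermitian, Matrix.conjTranspose_eq_transpose_of_trivial]
    exact hA
  refine ⟨hH.eigenvectorUnitary, hH.eigenvalues, ?_, ?_, ?_⟩
  · have := (Matrix.mem_unitaryGroup_iff (A := (hH.eigenvectorUnitary : Matrix V V ℝ))).1
      hH.eigenvectorUnitary.2
    rwa [Matrix.star_eq_conjTranspose, Matrix.conjTranspose_eq_transpose_of_trivial] at this
  · have := (Matrix.mem_unitaryGroup_iff' (A := (hH.eigenvectorUnitary : Matrix V V ℝ))).1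
      hH.eigenvectorUnitary.2
    rwa [Matrix.star_eq_conjTranspose, Matrix.conjTranspose_eq_transpose_of_trivial] at this
  · have h := hH.spectral_theorem
    rw [Unitary.conjStarAlgAut_apply, Matrix.star_eq_conjTranspose,
      Matrix.conjTranspose_eq_transpose_of_trivial] at h
    exact h

/-- The entries of the transition matrix in terms of spectral data of the adjacency matrix. -/
theorem transition_apply (G : SimpleGraph V) [DecidableRel G.Adj] {Q : Matrix V V ℝ}
    {lam : V → ℝ} (hQ : Q * Qᵀ = 1) (hA : G.adjMatrix ℝ = Q * Matrix.diagonal lam * Qᵀ)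
    (t : ℝ) (u v : V) :
    transition G t u v =
      ∑ i, (Q u i : ℂ) * (Q v i : ℂ) * Complex.exp ((t * lam i : ℝ) * Complex.I) := by
  set Qc : Matrix V V ℂ := Q.map Complex.ofRealHom with hQc
  have hQc1 : Qc * Qcᵀ = 1 := by
    rw [hQc, ← Matrix.transpose_map, ← Matrix.map_mul, hQ]
    exact Matrix.map_one _ (map_zero _) (map_one _)
  have hunit : IsUnit Qc := IsUnit.of_mul_eq_one _ hQc1
  have hinv : Qc⁻¹ = Qcᵀ := Matrix.inv_eq_right_inv hQc1
  have hAc : G.adjMatrix ℂ = Qc * Matrix.diagonal (fun i => (lam i : ℂ)) * Qc⁻¹ := by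
    have h1 : G.adjMatrix ℂ = (G.adjMatrix ℝ).map Complex.ofRealHom := by
      ext i j
      simp only [SimpleGraph.adjMatrix_apply, Matrix.map_apply]
      split_ifs <;> simp
    rw [h1, hA, hinv, hQc, ← Matrix.transpose_map, Matrix.map_mul, Matrix.map_mul,
      Matrix.diagonal_map (map_zero _)]
    rfl
  have hexp : transition G t =
      Qc * Matrix.diagonal (fun i => Complex.exp ((t * lam i : ℝ) * Complex.I)) * Qc⁻¹ := by
    unfold transition
    rw [hAc, ← Matrix.smul_mul, ← Matrix.mul_smul, Matrix.exp_conj _ _ hunit,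
      ← Matrix.diagonal_smul, Matrix.exp_diagonal]
    congr 2
    congr 1
    funext i
    rw [Pi.coe_exp, ← Complex.exp_eq_exp_ℂ]
    congr 1
    simp only [Pi.smul_apply, smul_eq_mul]
    push_cast
    ring
  rw [hexp, hinv]
  simp only [Matrix.mul_apply, Matrix.diagonal_apply, Matrix.transpose_apply, mul_ite, mul_zero,
    Finset.sum_ite_eq', Finset.mem_univ, if_true, hQc, Matrix.map_apply]
  refine Finset.sum_congr rfl fun i _ => ?_
  simp only [Complex.ofRealHom_eq_coe]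
  ring

/-- The phase condition equivalent to pretty good state transfer. -/
def PhaseCond (Q : Matrix V V ℝ) (lam : V → ℝ) (u v : V) : Prop :=
  ∀ ε : ℝ, 0 < ε → ∃ (t : ℝ) (γ : ℂ), ‖γ‖ = 1 ∧ ∀ i,
    (Q u i + Q v i ≠ 0 → ‖Complex.exp ((t * lam i : ℝ) * Complex.I) - γ‖ < ε) ∧
    (Q u i - Q v i ≠ 0 → ‖Complex.exp ((t * lam i : ℝ) * Complex.I) + γ‖ < ε)

theorem sum_sq_row {Q : Matrix V V ℝ} (hQ : Q * Qᵀ = 1) (u : V) : ∑ i, Q u i ^ 2 = 1 := by
  have := congrFun (congrFun hQ u) u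
  simp only [Matrix.mul_apply, Matrix.transpose_apply, Matrix.one_apply_eq] at this
  rw [← this]
  exact Finset.sum_congr rfl fun i _ => by ring

/-- Key computation: `∑ |c_i x_i - γ y_i|² = 2 - 2 Re(conj γ f)` for unit `c_i`, `γ`. -/
theorem sum_norm_sub_sq (c : V → ℂ) (hc : ∀ i, ‖c i‖ = 1) (γ : ℂ) (hγ : ‖γ‖ = 1) (x y : V → ℝ)
    (hx : ∑ i, x i ^ 2 = 1) (hy : ∑ i, y i ^ 2 = 1) :
    ∑ i, ‖c i * x i - γ * y i‖ ^ 2 =
      2 - 2 * (starRingEnd ℂ γ * ∑ i, (x i : ℂ) * (y i : ℂ) * c i).re := by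
  have h1 : ∀ i, ‖c i * x i - γ * y i‖ ^ 2 =
      x i ^ 2 + y i ^ 2 - 2 * (starRingEnd ℂ γ * ((x i : ℂ) * (y i : ℂ) * c i)).re := by
    intro i
    have hc' : (c i).re * (c i).re + (c i).im * (c i).im = 1 := by
      have := hc i
      rw [Complex.norm_def, Real.sqrt_eq_one] at this
      rwa [Complex.normSq_apply] at this
    have hγ' : γ.re * γ.re + γ.im * γ.im = 1 := by
      rw [Complex.norm_def, Real.sqrt_eq_one] at hγ
      rwa [Complex.normSq_apply] at hγ
    rw [Complex.sq_norm, Complex.normSq_apply]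
    simp only [Complex.sub_re, Complex.mul_re, Complex.ofReal_re, Complex.ofReal_im, mul_zero,
      sub_zero, Complex.sub_im, Complex.mul_im, zero_add, Complex.conj_re, Complex.conj_im,
      zero_mul, add_zero, neg_mul, sub_neg_eq_add]
    linear_combination (x i ^ 2) * hc' + (y i ^ 2) * hγ'
  simp only [h1]
  rw [Finset.sum_sub_distrib, Finset.sum_add_distrib, hx, hy, ← Finset.mul_sum,
    ← Complex.re_sum, ← Finset.mul_sum]
  ring

theorem norm_cexp (x : ℝ) : ‖Complex.exp ((x : ℂ) * Complex.I)‖ = 1 :=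
  Complex.norm_exp_ofReal_mul_I x

theorem exists_pos_lower_bound {ι : Type*} [Finite ι] (f : ι → ℝ) :
    ∃ δ : ℝ, 0 < δ ∧ ∀ i, f i ≠ 0 → δ ≤ |f i| := by
  classical
  have := Fintype.ofFinite ι
  by_cases h : (Finset.univ.filter fun i => f i ≠ 0).Nonempty
  · obtain ⟨i₀, hi₀, hmin⟩ := Finset.exists_min_image _ (fun i => |f i|) h
    refine ⟨|f i₀|, abs_pos.2 (Finset.mem_filter.1 hi₀).2, fun i hi => hmin i ?_⟩
    exact Finset.mem_filter.2 ⟨Finset.mem_univ _, hi⟩
  · refine ⟨1, one_pos, fun i hi => ?_⟩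
    exact absurd ⟨i, Finset.mem_filter.2 ⟨Finset.mem_univ _, hi⟩⟩ h

theorem PGST_iff_phaseCond (G : SimpleGraph V) [DecidableRel G.Adj] {Q : Matrix V V ℝ}
    {lam : V → ℝ} (hQ : Q * Qᵀ = 1) (hA : G.adjMatrix ℝ = Q * Matrix.diagonal lam * Qᵀ)
    (u v : V) : PGST G u v ↔ PhaseCond Q lam u v := by
  have hu := sum_sq_row hQ u
  have hv := sum_sq_row hQ v
  constructor
  · intro h ε hε
    obtain ⟨δ₁, hδ₁, hδ₁'⟩ := exists_pos_lower_bound (fun i => Q u i + Q v i)
    obtain ⟨δ₂, hδ₂, hδ₂'⟩ := exists_pos_lower_bound (fun i => Q u i - Q v i)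
    set δ := min δ₁ δ₂ with hδ
    have hδ0 : 0 < δ := lt_min hδ₁ hδ₂
    set η : ℝ := min (1 / 2) ((δ * ε / 4) ^ 2 / 2) with hη
    have hη0 : 0 < η := by positivity
    obtain ⟨t, ht⟩ := h η hη0
    rw [transition_apply G hQ hA] at ht
    set c : V → ℂ := fun i => Complex.exp ((t * lam i : ℝ) * Complex.I) with hc
    set f : ℂ := ∑ i, (Q u i : ℂ) * (Q v i : ℂ) * c i with hf
    have hc1 : ∀ i, ‖c i‖ = 1 := fun i => norm_cexp _
    have hf0 : 0 < ‖f‖ := by
      have : η ≤ 1 / 2 := min_le_left _ _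
      linarith
    have hfne : f ≠ 0 := norm_pos_iff.1 hf0
    set γ : ℂ := f / ‖f‖ with hγ
    have hγ1 : ‖γ‖ = 1 := by
      rw [hγ, norm_div, Complex.norm_real, norm_norm, div_self hf0.ne']
    have hγf : (starRingEnd ℂ γ * f).re = ‖f‖ := by
      have : starRingEnd ℂ γ * f = ((‖f‖ : ℝ) : ℂ) := by
        rw [hγ, map_div₀, Complex.conj_ofReal, div_mul_eq_mul_div, Complex.conj_mul']
        field_simp
      rw [this, Complex.ofReal_re]
    have hsum1 := sum_norm_sub_sq c hc1 γ hγ1 (Q u) (Q v) hu hv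
    have hsum2 := sum_norm_sub_sq c hc1 γ hγ1 (Q v) (Q u) hv hu
    have hf' : ∑ i, (Q v i : ℂ) * (Q u i : ℂ) * c i = f :=
      Finset.sum_congr rfl fun i _ => by ring
    rw [← hf, hγf] at hsum1
    rw [hf', hγf] at hsum2
    have hbound : ∀ (x y : V → ℝ), ∑ i, ‖c i * x i - γ * y i‖ ^ 2 = 2 - 2 * ‖f‖ →
        ∀ i, ‖c i * x i - γ * y i‖ < δ * ε / 2 := by
      intro x y hxy i
      have h1 : ‖c i * x i - γ * y i‖ ^ 2 ≤ 2 - 2 * ‖f‖ := by
        rw [← hxy]
        exact Finset.single_le_sum (f := fun i => ‖c i * x i - γ * y i‖ ^ 2)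
          (fun i _ => sq_nonneg _) (Finset.mem_univ i)
      have h2 : 2 - 2 * ‖f‖ < 2 * η := by linarith
      have h3 : 2 * η ≤ (δ * ε / 4) ^ 2 := by
        have : η ≤ (δ * ε / 4) ^ 2 / 2 := min_le_right _ _
        linarith
      have h4 : ‖c i * x i - γ * y i‖ ^ 2 < (δ * ε / 2) ^ 2 := by
        have : (δ * ε / 4) ^ 2 ≤ (δ * ε / 2) ^ 2 := by
          apply pow_le_pow_left₀ (by positivity)
          linarith [mul_pos hδ0 hε]
        linarith
      exact lt_of_pow_lt_pow_left₀ 2 (by positivity) h4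
    refine ⟨t, γ, hγ1, fun i => ⟨fun hp => ?_, fun hm => ?_⟩⟩
    · have h1 := hbound _ _ hsum1 i
      have h2 := hbound _ _ hsum2 i
      have h3 : (c i - γ) * ((Q u i + Q v i : ℝ) : ℂ) =
          (c i * Q u i - γ * Q v i) + (c i * Q v i - γ * Q u i) := by
        push_cast; ring
      have h4 : ‖c i - γ‖ * |Q u i + Q v i| < δ * ε := by
        rw [← Real.norm_eq_abs, ← Complex.norm_real, ← norm_mul, h3]
        calc _ ≤ ‖c i * Q u i - γ * Q v i‖ + ‖c i * Q v i - γ * Q u i‖ := norm_add_le _ _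
          _ < δ * ε := by linarith
      have h5 : δ ≤ |Q u i + Q v i| := le_trans (min_le_left _ _) (hδ₁' i hp)
      have h6 : ‖c i - γ‖ * δ ≤ ‖c i - γ‖ * |Q u i + Q v i| :=
        mul_le_mul_of_nonneg_left h5 (norm_nonneg _)
      have h7 : δ * ‖c i - γ‖ < δ * ε := by
        rw [mul_comm δ ‖_‖]
        linarith
      exact lt_of_mul_lt_mul_left h7 hδ0.le
    · have h1 := hbound _ _ hsum1 i
      have h2 := hbound _ _ hsum2 i
      have h3 : (c i + γ) * ((Q u i - Q v i : ℝ) : ℂ) =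
          (c i * Q u i - γ * Q v i) - (c i * Q v i - γ * Q u i) := by
        push_cast; ring
      have h4 : ‖c i + γ‖ * |Q u i - Q v i| < δ * ε := by
        rw [← Real.norm_eq_abs, ← Complex.norm_real, ← norm_mul, h3]
        calc _ ≤ ‖c i * Q u i - γ * Q v i‖ + ‖c i * Q v i - γ * Q u i‖ := norm_sub_le _ _
          _ < δ * ε := by linarith
      have h5 : δ ≤ |Q u i - Q v i| := le_trans (min_le_right _ _) (hδ₂' i hm)
      have h6 : ‖c i + γ‖ * δ ≤ ‖c i + γ‖ * |Q u i - Q v i| :=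
        mul_le_mul_of_nonneg_left h5 (norm_nonneg _)
      have h7 : δ * ‖c i + γ‖ < δ * ε := by
        rw [mul_comm δ ‖_‖]
        linarith
      exact lt_of_mul_lt_mul_left h7 hδ0.le
  · intro h ε hε
    obtain ⟨t, γ, hγ1, hγ⟩ := h ε hε
    refine ⟨t, ?_⟩
    rw [transition_apply G hQ hA]
    set c : V → ℂ := fun i => Complex.exp ((t * lam i : ℝ) * Complex.I) with hc
    have hone : ∑ i, (((Q u i + Q v i) ^ 2 / 4) + ((Q u i - Q v i) ^ 2 / 4)) = 1 := by
      have : ∀ i, ((Q u i + Q v i) ^ 2 / 4) + ((Q u i - Q v i) ^ 2 / 4) =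
          (Q u i ^ 2 + Q v i ^ 2) / 2 := fun i => by ring
      simp only [this]
      rw [← Finset.sum_div, Finset.sum_add_distrib, hu, hv]
      norm_num
    have hfγ : ∑ i, (Q u i : ℂ) * (Q v i : ℂ) * c i - γ =
        ∑ i, ((c i - γ) * (((Q u i + Q v i) ^ 2 / 4 : ℝ) : ℂ) -
          (c i + γ) * (((Q u i - Q v i) ^ 2 / 4 : ℝ) : ℂ)) := by
      have h1 : γ = ∑ i, γ * ((((Q u i + Q v i) ^ 2 / 4) + ((Q u i - Q v i) ^ 2 / 4) : ℝ) : ℂ) := by
        rw [← Finset.mul_sum, ← Complex.ofReal_sum, hone, Complex.ofReal_one, mul_one]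
      conv_lhs => rw [h1]
      rw [← Finset.sum_sub_distrib]
      refine Finset.sum_congr rfl fun i _ => ?_
      push_cast
      ring
    have hle : ‖∑ i, (Q u i : ℂ) * (Q v i : ℂ) * c i - γ‖ < ε := by
      rw [hfγ]
      have hterm : ∀ i, ‖(c i - γ) * (((Q u i + Q v i) ^ 2 / 4 : ℝ) : ℂ) -
          (c i + γ) * (((Q u i - Q v i) ^ 2 / 4 : ℝ) : ℂ)‖ ≤
          ε * (((Q u i + Q v i) ^ 2 / 4) + ((Q u i - Q v i) ^ 2 / 4)) := by
        intro i
        have ha : ‖(c i - γ) * (((Q u i + Q v i) ^ 2 / 4 : ℝ) : ℂ)‖ ≤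
            ε * ((Q u i + Q v i) ^ 2 / 4) := by
          rw [norm_mul, Complex.norm_real, Real.norm_of_nonneg (by positivity)]
          by_cases hp : Q u i + Q v i = 0
          · rw [hp]; simp
          · exact mul_le_mul_of_nonneg_right ((hγ i).1 hp).le (by positivity)
        have hb : ‖(c i + γ) * (((Q u i - Q v i) ^ 2 / 4 : ℝ) : ℂ)‖ ≤
            ε * ((Q u i - Q v i) ^ 2 / 4) := by
          rw [norm_mul, Complex.norm_real, Real.norm_of_nonneg (by positivity)]
          by_cases hp : Q u i - Q v i = 0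
          · rw [hp]; simp
          · exact mul_le_mul_of_nonneg_right ((hγ i).2 hp).le (by positivity)
        calc _ ≤ _ := norm_sub_le _ _
          _ ≤ _ := by rw [mul_add]; exact add_le_add ha hb
      -- a strict inequality for at least one index
      have hex : ∃ i, (Q u i) ≠ 0 := by
        by_contra hcon
        push Not at hcon
        simp [hcon] at hu
      obtain ⟨i₀, hi₀⟩ := hex
      have hstrict : ‖(c i₀ - γ) * (((Q u i₀ + Q v i₀) ^ 2 / 4 : ℝ) : ℂ) -
          (c i₀ + γ) * (((Q u i₀ - Q v i₀) ^ 2 / 4 : ℝ) : ℂ)‖ <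
          ε * (((Q u i₀ + Q v i₀) ^ 2 / 4) + ((Q u i₀ - Q v i₀) ^ 2 / 4)) := by
        rw [mul_add]
        refine lt_of_le_of_lt (norm_sub_le _ _) ?_
        rw [norm_mul, norm_mul, Complex.norm_real, Complex.norm_real,
          Real.norm_of_nonneg (by positivity), Real.norm_of_nonneg (by positivity)]
        by_cases hp : Q u i₀ + Q v i₀ = 0
        · have hm : Q u i₀ - Q v i₀ ≠ 0 := by
            intro hm
            apply hi₀
            linarith
          rw [hp]
          simp only [ne_eq, OfNat.ofNat_ne_zero, not_false_eq_true, zero_pow, zero_div, mul_zero,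
            zero_add]
          exact mul_lt_mul_of_pos_right ((hγ i₀).2 hm) (by positivity)
        · refine add_lt_add_of_lt_of_le
            (mul_lt_mul_of_pos_right ((hγ i₀).1 hp) (by positivity)) ?_
          by_cases hm : Q u i₀ - Q v i₀ = 0
          · rw [hm]; simp
          · exact mul_le_mul_of_nonneg_right ((hγ i₀).2 hm).le (by positivity)
      calc _ ≤ ∑ i, ‖(c i - γ) * (((Q u i + Q v i) ^ 2 / 4 : ℝ) : ℂ) -
          (c i + γ) * (((Q u i - Q v i) ^ 2 / 4 : ℝ) : ℂ)‖ := norm_sum_le _ _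
        _ < ∑ i, ε * (((Q u i + Q v i) ^ 2 / 4) + ((Q u i - Q v i) ^ 2 / 4)) :=
          Finset.sum_lt_sum (fun i _ => hterm i) ⟨i₀, Finset.mem_univ _, hstrict⟩
        _ = ε := by rw [← Finset.mul_sum, hone, mul_one]
    have : ‖γ‖ - ‖∑ i, (Q u i : ℂ) * (Q v i : ℂ) * c i‖ ≤
        ‖∑ i, (Q u i : ℂ) * (Q v i : ℂ) * c i - γ‖ := by
      rw [norm_sub_rev]
      exact norm_sub_norm_le _ _
    rw [hγ1] at this
    linarith

end Pool.Agent.H79
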